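import Pool.Agent.H35.TMU.Tmu

/-!
# Coarser keys and collisions

`P2_coarse`: two copies given a coarser key have the same value less often than two copies given
the key. `P2_near`: for near values a factor 2 and the double distance.
-/

set_option autoImplicit false

namespace Pool.P4T

open Finset Real
open Pool.Agent.H49.Ent Pool.Agent.H32.Dense Pool.STK Pool.KAF Pool.STAT
open Pool.BFL (Pb P2)

variable {Ω : Type} [Fintype Ω]

theorem law_sum {S T : Type} [Fintype S] (p : Ω → ℝ) (f : Ω → S) (h : Ω → T) (t : T) :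
    law p h t = ∑ s, law p (fun ω => (f ω, h ω)) (s, t) := by
  classical
  unfold law
  rw [Finset.sum_comm]
  refine Finset.sum_congr rfl fun ω _ => ?_
  by_cases h1 : h ω = t
  · rw [Finset.sum_eq_single (f ω)]
    · simp [h1]
    · intro s _ hs
      rw [if_neg]
      intro h2
      exact hs (Prod.ext_iff.1 h2).1.symm
    · intro h2
      exact absurd (mem_univ _) h2
  · rw [if_neg h1, Finset.sum_eq_zero]
    intro s _
    rw [if_neg]
    intro h2
    exact h1 (Prod.ext_iff.1 h2).2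

theorem P2_fin {S B : Type} [Fintype S] [Fintype B] (p : Ω → ℝ) (g : Ω → S) (κ : Ω → B) :
    P2 p g (fun ω ω' => κ ω = κ ω') =
      ∑ y, ∑ b, (law p (fun ω => (g ω, κ ω)) (y, b)) ^ 2 / law p g y := by
  classical
  have e1 : ∀ y b, (law p (fun ω => (g ω, κ ω)) (y, b)) ^ 2 / law p g y =
      ∑ ω, ∑ ω', if g ω = y ∧ κ ω = b ∧ g ω' = y ∧ κ ω' = b then
        p ω * p ω' / law p g y else 0 := by
    intro y b
    have e2 : law p (fun ω => (g ω, κ ω)) (y, b) = ∑ ω, if g ω = y ∧ κ ω = b then p ω else 0 := by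
      unfold law
      refine Finset.sum_congr rfl fun ω _ => ?_
      by_cases h : g ω = y ∧ κ ω = b
      · rw [if_pos h, if_pos (Prod.ext h.1 h.2)]
      · rw [if_neg h, if_neg fun h2 => h ⟨(Prod.ext_iff.1 h2).1, (Prod.ext_iff.1 h2).2⟩]
    rw [e2, pow_two, Finset.sum_mul_sum, Finset.sum_div]
    refine Finset.sum_congr rfl fun ω _ => ?_
    rw [Finset.sum_div]
    refine Finset.sum_congr rfl fun ω' _ => ?_
    by_cases h : g ω = y ∧ κ ω = b
    · by_cases h' : g ω' = y ∧ κ ω' = b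
      · rw [if_pos h, if_pos h', if_pos ⟨h.1, h.2, h'.1, h'.2⟩]
      · rw [if_pos h, if_neg h', mul_zero, zero_div, if_neg]
        rintro ⟨_, _, h3, h4⟩
        exact h' ⟨h3, h4⟩
    · rw [if_neg h, zero_mul, zero_div, if_neg]
      rintro ⟨h3, h4, _, _⟩
      exact h ⟨h3, h4⟩
  unfold P2
  rw [Finset.sum_congr rfl fun y _ => Finset.sum_congr rfl fun b _ => e1 y b]
  have e3 : ∀ y, ∑ b, ∑ ω, ∑ ω', (if g ω = y ∧ κ ω = b ∧ g ω' = y ∧ κ ω' = b then
        p ω * p ω' / law p g y else 0) = ∑ ω, ∑ ω', ∑ b,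
        (if g ω = y ∧ κ ω = b ∧ g ω' = y ∧ κ ω' = b then
        p ω * p ω' / law p g y else 0) := by
    intro y
    rw [Finset.sum_comm]
    exact Finset.sum_congr rfl fun ω _ => Finset.sum_comm
  have e4 : (∑ y, ∑ ω, ∑ ω', ∑ b,
        (if g ω = y ∧ κ ω = b ∧ g ω' = y ∧ κ ω' = b then
        p ω * p ω' / law p g y else 0)) = ∑ ω, ∑ ω', ∑ y, ∑ b,
        (if g ω = y ∧ κ ω = b ∧ g ω' = y ∧ κ ω' = b then
        p ω * p ω' / law p g y else 0) := by
    rw [Finset.sum_comm]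
    exact Finset.sum_congr rfl fun ω _ => Finset.sum_comm
  rw [Finset.sum_congr rfl fun y _ => e3 y, e4]
  refine Finset.sum_congr rfl fun ω _ => Finset.sum_congr rfl fun ω' _ => ?_
  by_cases h : g ω = g ω' ∧ κ ω = κ ω'
  · rw [if_pos h, Finset.sum_eq_single (g ω), Finset.sum_eq_single (κ ω),
      if_pos ⟨rfl, rfl, h.1.symm, h.2.symm⟩]
    · intro b _ hb
      rw [if_neg fun h2 => hb h2.2.1.symm]
    · intro h2
      exact absurd (mem_univ _) h2
    · intro y _ hy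
      exact Finset.sum_eq_zero fun b _ => by rw [if_neg fun h2 => hy h2.1.symm]
    · intro h2
      exact absurd (mem_univ _) h2
  · rw [if_neg h]
    refine (Finset.sum_eq_zero fun y _ => Finset.sum_eq_zero fun b _ => ?_).symm
    rw [if_neg]
    intro h2
    exact h ⟨h2.1.trans h2.2.2.1.symm, h2.2.1.trans h2.2.2.2.symm⟩

theorem sed {S : Type} [Fintype S] (m l : S → ℝ) (hl : ∀ s, 0 ≤ l s)
    (hm : ∀ s, l s = 0 → m s = 0) : (∑ s, m s) ^ 2 / ∑ s, l s ≤ ∑ s, m s ^ 2 / l s := by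
  classical
  have e1 : ∑ s, m s = ∑ s ∈ univ.filter (fun s => 0 < l s), m s := by
    rw [Finset.sum_filter]
    refine Finset.sum_congr rfl fun s _ => ?_
    by_cases h : 0 < l s
    · rw [if_pos h]
    · rw [if_neg h, hm s (le_antisymm (not_lt.1 h) (hl s))]
  have e2 : ∑ s, l s = ∑ s ∈ univ.filter (fun s => 0 < l s), l s := by
    rw [Finset.sum_filter]
    refine Finset.sum_congr rfl fun s _ => ?_
    by_cases h : 0 < l s
    · rw [if_pos h]
    · rw [if_neg h, le_antisymm (not_lt.1 h) (hl s)]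
  have e3 : ∑ s, m s ^ 2 / l s = ∑ s ∈ univ.filter (fun s => 0 < l s), m s ^ 2 / l s := by
    rw [Finset.sum_filter]
    refine Finset.sum_congr rfl fun s _ => ?_
    by_cases h : 0 < l s
    · rw [if_pos h]
    · rw [if_neg h, le_antisymm (not_lt.1 h) (hl s), div_zero]
  rw [e1, e2, e3]
  exact Finset.sq_sum_div_le_sum_sq_div _ _ fun s hs => (mem_filter.1 hs).2

theorem P2_sed {S S' B : Type} [Fintype S] [Fintype S'] [Fintype B] {p : Ω → ℝ}
    (hp : ∀ ω, 0 ≤ p ω) (g : Ω → S) (g' : Ω → S') (κ : Ω → B) :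
    P2 p g' (fun ω ω' => κ ω = κ ω') ≤
      P2 p (fun ω => (g ω, g' ω)) (fun ω ω' => κ ω = κ ω') := by
  classical
  rw [P2_fin, P2_fin, Fintype.sum_prod_type_right]
  refine Finset.sum_le_sum fun y' _ => ?_
  rw [Finset.sum_comm]
  refine Finset.sum_le_sum fun b _ => ?_
  have e1 : law p (fun ω => (g' ω, κ ω)) (y', b) =
      ∑ y, law p (fun ω => ((g ω, g' ω), κ ω)) ((y, y'), b) := by
    rw [law_sum p g (fun ω => (g' ω, κ ω)) (y', b)]
    refine Finset.sum_congr rfl fun y _ => ?_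
    unfold law
    refine Finset.sum_congr rfl fun ω _ => ?_
    by_cases h : (g ω, (g' ω, κ ω)) = (y, (y', b))
    · have h1 := Prod.ext_iff.1 h
      have h2 := Prod.ext_iff.1 h1.2
      rw [if_pos h, if_pos (Prod.ext (Prod.ext h1.1 h2.1) h2.2)]
    · rw [if_neg h, if_neg]
      intro h1
      refine h ?_
      have h2 := Prod.ext_iff.1 h1
      have h3 := Prod.ext_iff.1 h2.1
      exact Prod.ext h3.1 (Prod.ext h3.2 h2.2)
  rw [e1, law_sum p g g' y']
  refine sed (fun y => law p (fun ω => ((g ω, g' ω), κ ω)) ((y, y'), b))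
    (fun y => law p (fun ω => (g ω, g' ω)) (y, y')) (fun y => law_nonneg hp _ _) fun y hy => ?_
  have h0 : ∀ ω, (g ω, g' ω) = (y, y') → p ω = 0 := by
    intro ω hω
    unfold law at hy
    have h1 := (Finset.sum_eq_zero_iff_of_nonneg fun ω _ => by
      split_ifs
      · exact hp ω
      · exact le_rfl).1 hy ω (mem_univ _)
    rwa [if_pos hω] at h1
  change law p (fun ω => ((g ω, g' ω), κ ω)) ((y, y'), b) = 0
  unfold law
  refine Finset.sum_eq_zero fun ω _ => ?_
  by_cases h : ((g ω, g' ω), κ ω) = ((y, y'), b)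
  · rw [if_pos h, h0 ω (Prod.ext_iff.1 h).1]
  · rw [if_neg h]

open Classical in
/-- The class of `ω`. -/
noncomputable def cls {S : Type} (f : Ω → S) (ω : Ω) : Finset Ω := univ.filter fun ω' => f ω' = f ω

theorem cls_iff {S : Type} (f : Ω → S) (ω ω' : Ω) : cls f ω = cls f ω' ↔ f ω = f ω' := by
  classical
  unfold cls
  constructor
  · intro h
    have h1 : ω ∈ univ.filter fun ω'' => f ω'' = f ω := mem_filter.2 ⟨mem_univ _, rfl⟩
    rw [h] at h1
    exact (mem_filter.1 h1).2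
  · intro h
    rw [h]

/-- **Coarser keys have fewer collisions.** -/
theorem P2_coarse {S S' B : Type} {p : Ω → ℝ} (hp : ∀ ω, 0 ≤ p ω) (g : Ω → S) (g' : Ω → S')
    (h : Det p g g') (κ : Ω → B) :
    P2 p g' (fun ω ω' => κ ω = κ ω') ≤ P2 p g (fun ω ω' => κ ω = κ ω') := by
  have h1 : P2 p g' (fun ω ω' => κ ω = κ ω') ≤
      P2 p (cls g') (fun ω ω' => cls κ ω = cls κ ω') :=
    P2_le_of hp (fun ω ω' _ _ e => (cls_iff g' ω ω').2 e)
      (fun ω ω' _ _ e => (cls_iff g' ω ω').1 e)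
      (fun ω ω' _ _ _ e => (cls_iff κ ω ω').2 e)
  have h2 := P2_sed hp (cls g) (cls g') (cls κ)
  have h3 : P2 p (fun ω => (cls g ω, cls g' ω)) (fun ω ω' => cls κ ω = cls κ ω') ≤
      P2 p g (fun ω ω' => κ ω = κ ω') :=
    P2_le_of hp (fun ω ω' _ _ e => (cls_iff g ω ω').1 (Prod.ext_iff.1 e).1)
      (fun ω ω' a b e => Prod.ext ((cls_iff g ω ω').2 e) ((cls_iff g' ω ω').2 (h ω ω' a b e)))
      (fun ω ω' _ _ _ e => (cls_iff κ ω ω').1 e)
  exact h1.trans (h2.trans h3)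

theorem P2_or {S : Type} {p : Ω → ℝ} (hp : ∀ ω, 0 ≤ p ω) (g : Ω → S)
    {A B C : Ω → Ω → Prop} (h : ∀ ω ω', 0 < p ω → 0 < p ω' → g ω = g ω' → A ω ω' →
      B ω ω' ∨ C ω ω') : P2 p g A ≤ P2 p g B + P2 p g C := by
  classical
  unfold P2
  rw [← Finset.sum_add_distrib]
  refine Finset.sum_le_sum fun ω _ => ?_
  rw [← Finset.sum_add_distrib]
  refine Finset.sum_le_sum fun ω' _ => ?_
  have hnn : 0 ≤ p ω * p ω' / law p g (g ω) :=
    div_nonneg (mul_nonneg (hp ω) (hp ω')) (law_nonneg hp g _)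
  have z0 : ∀ P : Prop, [Decidable P] → 0 ≤ if P then p ω * p ω' / law p g (g ω) else 0 := by
    intro P _
    split_ifs
    · exact hnn
    · exact le_rfl
  by_cases h1 : g ω = g ω' ∧ A ω ω'
  · rw [if_pos h1]
    by_cases h0 : 0 < p ω ∧ 0 < p ω'
    · rcases h ω ω' h0.1 h0.2 h1.1 h1.2 with h2 | h2
      · rw [if_pos ⟨h1.1, h2⟩]
        have := z0 (g ω = g ω' ∧ C ω ω')
        linarith
      · rw [if_pos (c := g ω = g ω' ∧ C ω ω') ⟨h1.1, h2⟩]
        have := z0 (g ω = g ω' ∧ B ω ω')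
        linarith
    · have h2 : p ω * p ω' = 0 := by
        rw [not_and_or] at h0
        rcases h0 with h0 | h0
        · rw [le_antisymm (not_lt.1 h0) (hp ω), zero_mul]
        · rw [le_antisymm (not_lt.1 h0) (hp ω'), mul_zero]
      rw [h2, zero_div]
      have := z0 (g ω = g ω' ∧ C ω ω')
      have := z0 (g ω = g ω' ∧ B ω ω')
      simp
  · rw [if_neg h1]
    have := z0 (g ω = g ω' ∧ C ω ω')
    have := z0 (g ω = g ω' ∧ B ω ω')
    linarith

/-- **Near values.** -/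
theorem P2_near {S S' : Type} {p : Ω → ℝ} (hp : ∀ ω, 0 ≤ p ω) (g : Ω → S) (g' : Ω → S')
    (h : Det p g g') (τ : Ω → ℕ) (N : ℕ) (hN : 0 < N) :
    P2 p g' (fun ω ω' => |((τ ω : ℤ) - τ ω' : ℤ)| ≤ N) ≤
      2 * P2 p g (fun ω ω' => |((τ ω : ℤ) - τ ω' : ℤ)| < 2 * N) := by
  have h1 : P2 p g' (fun ω ω' => |((τ ω : ℤ) - τ ω' : ℤ)| ≤ N) ≤
      P2 p g' (fun ω ω' => τ ω / (2 * N) = τ ω' / (2 * N)) +
        P2 p g' (fun ω ω' => (τ ω + N) / (2 * N) = (τ ω' + N) / (2 * N)) := by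
    refine P2_or hp g' fun ω ω' _ _ _ hA => ?_
    generalize τ ω = a at hA ⊢
    generalize τ ω' = b at hA ⊢
    rw [abs_le] at hA
    -- the quotients by `N`
    obtain ⟨x, hx⟩ : ∃ x, x = a / N := ⟨_, rfl⟩
    obtain ⟨y, hy⟩ : ∃ y, y = b / N := ⟨_, rfl⟩
    have hx1 : x * N ≤ a := hx ▸ Nat.div_mul_le_self a N
    have hx2 : a < (x + 1) * N := by
      rw [hx]
      exact Nat.lt_mul_of_div_lt (Nat.lt_succ_self _) hN
    have hy1 : y * N ≤ b := hy ▸ Nat.div_mul_le_self b N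
    have hy2 : b < (y + 1) * N := by
      rw [hy]
      exact Nat.lt_mul_of_div_lt (Nat.lt_succ_self _) hN
    have hxy : x ≤ y + 1 := by
      by_contra hcon
      have h3 : y + 2 ≤ x := by omega
      have h4 : (y + 2) * N ≤ x * N := Nat.mul_le_mul_right N h3
      have h5 : (y + 2) * N = (y + 1) * N + N := by ring
      omega
    have hyx : y ≤ x + 1 := by
      by_contra hcon
      have h3 : x + 2 ≤ y := by omega
      have h4 : (x + 2) * N ≤ y * N := Nat.mul_le_mul_right N h3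
      have h5 : (x + 2) * N = (x + 1) * N + N := by ring
      omega
    have e1 : a / (2 * N) = x / 2 := by
      rw [hx, Nat.div_div_eq_div_mul, mul_comm N 2]
    have e2 : b / (2 * N) = y / 2 := by
      rw [hy, Nat.div_div_eq_div_mul, mul_comm N 2]
    have e3 : (a + N) / (2 * N) = (x + 1) / 2 := by
      rw [mul_comm 2 N, ← Nat.div_div_eq_div_mul, Nat.add_div_right _ hN, ← hx]
    have e4 : (b + N) / (2 * N) = (y + 1) / 2 := by
      rw [mul_comm 2 N, ← Nat.div_div_eq_div_mul, Nat.add_div_right _ hN, ← hy]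
    rw [e1, e2, e3, e4]
    omega
  have h2 := P2_coarse hp g g' h (fun ω => τ ω / (2 * N))
  have h3 := P2_coarse hp g g' h (fun ω => (τ ω + N) / (2 * N))
  have h4 : P2 p g (fun ω ω' => τ ω / (2 * N) = τ ω' / (2 * N)) ≤
      P2 p g (fun ω ω' => |((τ ω : ℤ) - τ ω' : ℤ)| < 2 * N) :=
    P2_le_of hp (fun _ _ _ _ e => e) (fun _ _ _ _ e => e) fun ω ω' _ _ _ e => by
      have a1 := Nat.div_add_mod (τ ω) (2 * N)
      have a2 := Nat.div_add_mod (τ ω') (2 * N)
      have a3 := Nat.mod_lt (τ ω) (show 0 < 2 * N by omega)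
      have a4 := Nat.mod_lt (τ ω') (show 0 < 2 * N by omega)
      rw [e] at a1
      rw [abs_lt]
      constructor <;> omega
  have h5 : P2 p g (fun ω ω' => (τ ω + N) / (2 * N) = (τ ω' + N) / (2 * N)) ≤
      P2 p g (fun ω ω' => |((τ ω : ℤ) - τ ω' : ℤ)| < 2 * N) :=
    P2_le_of hp (fun _ _ _ _ e => e) (fun _ _ _ _ e => e) fun ω ω' _ _ _ e => by
      have a1 := Nat.div_add_mod (τ ω + N) (2 * N)
      have a2 := Nat.div_add_mod (τ ω' + N) (2 * N)
      have a3 := Nat.mod_lt (τ ω + N) (show 0 < 2 * N by omega)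
      have a4 := Nat.mod_lt (τ ω' + N) (show 0 < 2 * N by omega)
      rw [e] at a1
      rw [abs_lt]
      constructor <;> omega
  linarith

end Pool.P4T
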