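import Pool.Agent.H14.P4.Stm
import Pool.Agent.H35.P4.Coarse

/-!
# P4: the time of the picture

`tf_stmt`: the time is full. `tm_stmt`: in one of the windows two times of a line are not near.
-/

set_option autoImplicit false

namespace Pool.P4T

open Finset Real
open Pool.Agent.H49.Ent Pool.Agent.H32.Dense Pool.STK Pool.KAF Pool.STAT Pool.TMU
open Pool.BFL (Pb P2)
open Pool.OCG (nr)

theorem Pb_two {Ω Λ : Type} [Fintype Ω] {p : Ω → ℝ} (hp : ∀ ω, 0 ≤ p ω) (L : Ω → Λ)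
    (A : Ω → Ω → Prop) : Pb (Pool.SLO.tup p L 1) (fun w => A (w 0) (w 1)) = P2 p L A := by
  classical
  have h3 : Marg (Pool.SLO.tup p L 1) (dbl p L) (fun v => (v 0, v 1)) :=
    Pool.SLO.tup_two hp L 0 1 (by decide)
  rw [P2_eq_dbl, ← Pool.L1.Pr_marg h3 {w | A w.1 w.2}, Pool.KAF.Pr_eq]
  unfold Pb
  exact Finset.sum_congr rfl fun w _ => rfl

/-- The digits of the time in the window. -/
theorem tq_eq {J w X T : ℕ} (h : w + X ≤ J) :
    T / 2 ^ (J - (w + X)) = T / 2 ^ (J - w) * 2 ^ X + Pool.P4.tq J w X T := by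
  unfold Pool.P4.tq
  obtain ⟨D, hD⟩ : ∃ D, D = 2 ^ (J - w - X) := ⟨_, rfl⟩
  have hD0 : 0 < D := by rw [hD]; positivity
  have e1 : 2 ^ (J - w) = D * 2 ^ X := by
    rw [hD, ← pow_add]
    congr 1
    omega
  have e2 : J - (w + X) = J - w - X := by omega
  rw [e2, ← hD, e1]
  have h1 := Nat.div_add_mod T (D * 2 ^ X)
  have h2 : T = D * (T / (D * 2 ^ X) * 2 ^ X) + T % (D * 2 ^ X) := by
    rw [← mul_assoc, mul_comm (D * (T / (D * 2 ^ X))), ← mul_assoc, mul_comm (2 ^ X) D]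
    exact h1.symm
  conv_lhs => rw [h2]
  rw [Nat.mul_add_div hD0]

theorem tq_lt {J w X T : ℕ} (h : w + X ≤ J) : Pool.P4.tq J w X T < 2 ^ X := by
  unfold Pool.P4.tq
  rw [Nat.div_lt_iff_lt_mul (by positivity), ← pow_add]
  refine (Nat.mod_lt _ (by positivity)).trans_le (le_of_eq ?_)
  congr 1
  omega

/-- Near digits in the same window: near times. -/
theorem tq_near {J w X k T T' : ℕ} (h : w + X ≤ J) (hk : k ≤ X)
    (hw : T / 2 ^ (J - w) = T' / 2 ^ (J - w))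
    (hd : |((Pool.P4.tq J w X T : ℤ) - Pool.P4.tq J w X T' : ℤ)| < 2 ^ (X - k)) :
    |(T : ℝ) - T'| * 2 ^ (w + k) < 2 ^ J := by
  obtain ⟨D, hD⟩ : ∃ D, D = 2 ^ (J - (w + X)) := ⟨_, rfl⟩
  have hD0 : 0 < D := by rw [hD]; positivity
  have e1 := tq_eq (T := T) h
  have e2 := tq_eq (T := T') h
  rw [← hD] at e1 e2
  rw [hw] at e1
  obtain ⟨a, ha⟩ : ∃ a, a = T / D := ⟨_, rfl⟩
  obtain ⟨b, hb⟩ : ∃ b, b = T' / D := ⟨_, rfl⟩
  have a1 := Nat.div_add_mod T D
  have a2 := Nat.div_add_mod T' D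
  have a3 := Nat.mod_lt T hD0
  have a4 := Nat.mod_lt T' hD0
  rw [← ha] at a1 e1
  rw [← hb] at a2 e2
  have e3 : |((a : ℤ) - b)| < 2 ^ (X - k) := by
    have : (a : ℤ) - b = (Pool.P4.tq J w X T : ℤ) - Pool.P4.tq J w X T' := by
      rw [e1, e2]
      push_cast
      ring
    rw [this]
    exact hd
  obtain ⟨N, hN⟩ : ∃ N : ℕ, N = 2 ^ (X - k) := ⟨_, rfl⟩
  have e4 : |((a : ℤ) - b)| < (N : ℤ) := by
    rw [hN]
    push_cast
    exact e3
  have e5 : |((T : ℤ) - T')| < (N : ℤ) * D := by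
    rw [abs_lt] at e4 ⊢
    have b1 : (T : ℤ) = D * a + (T % D : ℕ) := by
      exact_mod_cast a1.symm
    have b2 : (T' : ℤ) = D * b + (T' % D : ℕ) := by
      exact_mod_cast a2.symm
    have b3 : ((T % D : ℕ) : ℤ) < D := by exact_mod_cast a3
    have b4 : ((T' % D : ℕ) : ℤ) < D := by exact_mod_cast a4
    have b5 : (0 : ℤ) ≤ (T % D : ℕ) := Int.natCast_nonneg _
    have b6 : (0 : ℤ) ≤ (T' % D : ℕ) := Int.natCast_nonneg _
    have b7 : (0 : ℤ) < D := by exact_mod_cast hD0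
    have b8 : (D : ℤ) * (a - b) ≤ D * (N - 1) := mul_le_mul_of_nonneg_left (by omega) b7.le
    have b9 : (D : ℤ) * (b - a) ≤ D * (N - 1) := mul_le_mul_of_nonneg_left (by omega) b7.le
    constructor <;> nlinarith
  have e6 : |(T : ℝ) - T'| < N * D := by
    have : |(((T : ℤ) - T' : ℤ) : ℝ)| < (((N : ℤ) * D : ℤ) : ℝ) := by
      rw [← Int.cast_abs]
      exact_mod_cast e5
    push_cast at this
    exact this
  calc |(T : ℝ) - T'| * 2 ^ (w + k) < N * D * 2 ^ (w + k) :=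
        mul_lt_mul_of_pos_right e6 (by positivity)
    _ = 2 ^ J := by
        rw [hN, hD]
        push_cast
        rw [← pow_add, ← pow_add]
        congr 1
        omega

section

variable {n K J a₀ w₀ z M : ℕ} {lam gam : ℕ → ℝ} {κ C₁ : ℝ} {D : NDat2} {q : D.Ω → ℝ}

/-- The end of the windows. -/
theorem end_le (hO : D.Ok2 n K J a₀ w₀ z M lam gam κ C₁ q) : w₀ + 2 * ((M + 1) * z) ≤ J := by
  have h1 := hO.thin
  have h2 := hO.top
  omega

theorem det_win (_hO : D.Ok2 n K J a₀ w₀ z M lam gam κ C₁ q) {w w' : ℕ} (h : w' ≤ w)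
    (h' : w ≤ J) : Det q (D.wn J w) (D.wn J w') := by
  intro ω ω' _ _ e
  have e1 : D.ln ω = D.ln ω' := (Prod.ext_iff.1 e).1
  have e2 : D.T ω / 2 ^ (J - w) = D.T ω' / 2 ^ (J - w) := (Prod.ext_iff.1 e).2
  refine Prod.ext e1 ?_
  change D.T ω / 2 ^ (J - w') = D.T ω' / 2 ^ (J - w')
  rw [win_div _ h h', win_div _ h h', e2]

theorem det_bb (hO : D.Ok2 n K J a₀ w₀ z M lam gam κ C₁ q) {i j r w : ℕ} (hi : i ≤ M)
    (hj : j ≤ M) (hw : w₀ + j * z ≤ w) (hw' : w ≤ J) :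
    Det q (D.wn J w) (Pool.P4.bb D i j r) := by
  intro ω ω' p1 p2 e
  have hjr : w₀ + (j - r) * z ≤ w := by
    have := Nat.mul_le_mul_right z (Nat.sub_le j r)
    omega
  exact Prod.ext (hO.c_wn i hi j hj ω ω' p1 p2 (det_win hO hw hw' ω ω' p1 p2 e))
    (hO.c_wn (i - 1) ((Nat.sub_le i 1).trans hi) (j - r) ((Nat.sub_le j r).trans hj) ω ω' p1 p2
      (det_win hO hjr hw' ω ω' p1 p2 e))

theorem det_cb (hO : D.Ok2 n K J a₀ w₀ z M lam gam κ C₁ q) {i j r w : ℕ} (hi : i ≤ M)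
    (hj : j ≤ M) (hw : w₀ + j * z ≤ w) (hw' : w ≤ J) :
    Det q (D.wn J w) (Pool.P4.cb D J w i j r) := fun ω ω' p1 p2 e =>
  Prod.ext (det_bb hO hi hj hw hw' ω ω' p1 p2 e) (Prod.ext_iff.1 e).2

/-- The line of the picture is a function of the line and of the window. -/
theorem det_line (hO : D.Ok2 n K J a₀ w₀ z M lam gam κ C₁ q) {i j r w X c k : ℕ} {C : ℝ}
    {P : D.Γ × D.Γ → ℕ → PN} {S : D.Ω → ℕ → ℕ → ℝ} {ys : Fin k → ℕ} {gs : Fin c → ℕ}
    (hi : i ≤ M) (hj : j ≤ M) (hw : w₀ + j * z ≤ w) (hw' : w ≤ J) :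
    Det q (D.wn J w) (Pool.P4.qh (c := c) (k := k) D J w z i j r X C P S ys gs q).line := by
  intro ω ω' p1 p2 e
  have e1 : D.ln ω = D.ln ω' := (Prod.ext_iff.1 e).1
  have e2 : D.T ω / 2 ^ (J - w) = D.T ω' / 2 ^ (J - w) := (Prod.ext_iff.1 e).2
  have e3 : Pool.P4.bb D i j r ω = Pool.P4.bb D i j r ω' := det_bb hO hi hj hw hw' ω ω' p1 p2 e
  have e4 : Pool.P4.cb D J w i j r ω = Pool.P4.cb D J w i j r ω' :=
    det_cb hO hi hj hw hw' ω ω' p1 p2 e
  have e5 : Pool.P4.t0 D J w ω = Pool.P4.t0 D J w ω' := by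
    unfold Pool.P4.t0
    rw [e2]
  have e6 : ∀ t l, Pool.P4.zt D i j r P t ω l = Pool.P4.zt D i j r P t ω' l := by
    intro t l
    unfold Pool.P4.zt
    rw [e1, e3]
  have e7 : ∀ l, Pool.P4.z0 D J w i j r P ω l = Pool.P4.z0 D J w i j r P ω' l := by
    intro l
    unfold Pool.P4.z0
    rw [e5, e6]
  have e8 : ∀ l, Pool.P4.be D J w i j r P ω l = Pool.P4.be D J w i j r P ω' l := by
    intro l
    unfold Pool.P4.be
    rw [e5, e6, e7]
  have f1 : Pool.P4.nuv (c := c) D J w z i j r X C P gs ω =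
      Pool.P4.nuv (c := c) D J w z i j r X C P gs ω' := by
    funext u
    unfold Pool.P4.nuv
    rw [e7]
  have f2 : Pool.P4.yv (k := k) D J w z i j r X C P ys ω =
      Pool.P4.yv (k := k) D J w z i j r X C P ys ω' := by
    funext u
    unfold Pool.P4.yv
    rw [e7]
  have f3 : Pool.P4.bev (c := c) D J w z i j r X C P gs ω =
      Pool.P4.bev (c := c) D J w z i j r X C P gs ω' := by
    funext u
    unfold Pool.P4.bev
    rw [e8]
  exact Prod.ext f1 (Prod.ext (Prod.ext e4 (Prod.ext f2 f3)) e4)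

end

/-- **(TF)** The time is full. -/
theorem tf_stmt : Pool.P4.TFStmt := by
  intro n K K' c k C₁ C
  refine ⟨1, zero_le_one, ?_⟩
  intro D J a₀ w₀ z M w i j r r' r'' y X lam gam κ q E P S ys gs H
  have hO := H.ok
  have hq := hO.isLaw
  have hend := end_le hO
  obtain ⟨x, hx, hix⟩ := H.Xz
  have i2 := H.i2
  have j2 := H.j2
  have w1 := H.w1
  have w2 := H.w2
  have h1 : (j + 1) * z ≤ (M + 1) * z := Nat.mul_le_mul_right z (by omega)
  have h2 : x * z ≤ (M + 1) * z := Nat.mul_le_mul_right z (by omega)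
  have hwX : w + X ≤ J := by omega
  have hU := H.tmu
  unfold NDat2.TmU at hU
  have hww : w₀ ≤ w := by omega
  have g1 := CH_low hq D.T D.ln hww (by omega) hO.ln_w hU
  have g2 := CH_le_add hq.nonneg D.T (fun ω => Pool.P4.tq J w X (D.T ω))
    (fun ω => (D.ln ω, D.T ω / 2 ^ (J - w)))
  have g3 : CH q D.T (fun ω => (Pool.P4.tq J w X (D.T ω), (D.ln ω, D.T ω / 2 ^ (J - w)))) ≤
      ((J - (w + X) : ℕ) : ℝ) * Real.log 2 := by
    refine CH_win' hq D.T _ hwX ?_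
    intro ω ω' _ _ e
    simp only [Prod.mk.injEq] at e
    obtain ⟨e3, _, e2⟩ := e
    change D.T ω / 2 ^ (J - (w + X)) = D.T ω' / 2 ^ (J - (w + X))
    rw [tq_eq hwX, tq_eq hwX, e3, e2]
  have g4 : CH q (fun ω => Pool.P4.tq J w X (D.T ω))
      (fun ω => (D.ln ω, D.T ω / 2 ^ (J - w))) ≤
      CH q (fun ω => Pool.P4.tq J w X (D.T ω)) (Pool.P4.cb D J w i j r) :=
    CH_mono_cond hq.nonneg (det_cb hO (by omega) (by omega) w1 (by omega))
  have g5 : ((J - w : ℕ) : ℝ) = ((J - (w + X) : ℕ) : ℝ) + X := by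
    rw [← Nat.cast_add]
    congr 1
    omega
  rw [g5, add_mul] at g1
  unfold Pool.P4.err
  have hb : 0 ≤ (X : ℝ) * Pb q (fun ω => ¬ E ω) := by
    refine mul_nonneg (Nat.cast_nonneg _) ?_
    unfold Pb
    refine Finset.sum_nonneg fun ω _ => ?_
    split_ifs
    · exact hq.nonneg ω
    · exact le_rfl
  have hz0 : (0 : ℝ) ≤ z := Nat.cast_nonneg z
  rw [one_mul]
  linarith

/-- **(TM)** In one of the windows two times of a line are not near. -/
theorem tm_stmt : Pool.P4.TMStmt := by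
  intro η hη
  obtain ⟨k', hk'⟩ : ∃ k' : ℕ, k' = ⌈64 / η⌉₊ + 1 := ⟨_, rfl⟩
  have hk1 : 1 ≤ k' := by omega
  have hk0 : (0 : ℝ) < k' := by exact_mod_cast hk1
  have hk2 : 64 / η ≤ (k' : ℝ) := by
    rw [hk']
    push_cast
    have := Nat.le_ceil (64 / η)
    linarith
  refine ⟨1 / 2 ^ (k' + 1), by positivity, ?_⟩
  intro n K K' M c k C₁ C
  obtain ⟨z₀, hz₀⟩ : ∃ z₀ : ℕ, z₀ = max (k' + 1) ⌈16 * k' / η⌉₊ := ⟨_, rfl⟩
  refine ⟨η / 32, z₀, by positivity, ?_⟩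
  intro D J a₀ w₀ z i j r X lam gam κ q P S ys gs hκ hz hzX hXM hi hr hj hO hU
  have hq := hO.isLaw
  have hend := end_le hO
  have hz1 : k' + 1 ≤ z := (le_max_left _ _).trans (hz₀ ▸ hz)
  have hz2 : 16 * (k' : ℝ) / η ≤ z := by
    refine (Nat.le_ceil _).trans ?_
    exact_mod_cast (le_max_right _ _).trans (hz₀ ▸ hz)
  have hzr : (0 : ℝ) < z := by
    have : 0 < z := by omega
    exact_mod_cast this
  have h1 : (j + 1) * z ≤ (M + 1) * z := Nat.mul_le_mul_right z (by omega)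
  have h1' : (j + 1) * z = j * z + z := by ring
  have h2 : M * z ≤ (M + 1) * z := Nat.mul_le_mul_right z (by omega)
  obtain ⟨wj, hwj⟩ : ∃ wj, wj = w₀ + j * z := ⟨_, rfl⟩
  have hwx : wj + z ≤ J := by omega
  unfold NDat2.TmU at hU
  -- the sum over the scales
  have hsum : ∑ u ∈ range z, nr q (fun ω => (D.ln ω, D.T ω / 2 ^ (J - wj))) (th D.T J wj) k' u ≤
      κ * z / Real.log 2 + 4 * z / k' + k' :=
    Pool.TML.tm_full hq _ _ (th_mem D.T J wj) hk1 (full_tl hq (by omega) hwx hO.ln_w hU)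
  have hl2 : 1 / 2 ≤ Real.log 2 := by linarith [Real.log_two_gt_d9]
  have hb1 : κ * z / Real.log 2 ≤ η / 16 * z := by
    rw [div_le_iff₀ (by linarith)]
    have e1 : κ * (z : ℝ) ≤ η / 32 * z := mul_le_mul_of_nonneg_right hκ hzr.le
    have e2 : 0 ≤ η / 16 * z := by positivity
    nlinarith
  have hb2 : 4 * (z : ℝ) / k' ≤ η / 16 * z := by
    rw [div_le_iff₀ hη] at hk2
    rw [div_le_iff₀ hk0]
    have : 64 * (z : ℝ) ≤ k' * η * z := mul_le_mul_of_nonneg_right hk2 hzr.le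
    nlinarith
  have hb3 : (k' : ℝ) ≤ η / 16 * z := by
    rw [div_le_iff₀ hη] at hz2
    linarith
  have hex : ∃ u < z, nr q (fun ω => (D.ln ω, D.T ω / 2 ^ (J - wj))) (th D.T J wj) k' u ≤
      η / 4 := by
    by_contra hcon
    push Not at hcon
    have e1 : ∑ u ∈ range z, η / 4 ≤
        ∑ u ∈ range z, nr q (fun ω => (D.ln ω, D.T ω / 2 ^ (J - wj))) (th D.T J wj) k' u :=
      Finset.sum_le_sum fun u hu => (hcon u (mem_range.1 hu)).le
    rw [Finset.sum_const, card_range, nsmul_eq_mul] at e1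
    have e2 : 0 < η * z := by positivity
    linarith
  obtain ⟨u, hu, hnr⟩ := hex
  have hnear := (P2_le_nr (p := q) (T := D.T) (L := D.ln) (k' := k') hq.nonneg
    (show wj + u ≤ J by omega)).trans hnr
  obtain ⟨w, hw⟩ : ∃ w, w = wj + u := ⟨_, rfl⟩
  rw [← hw] at hnear
  refine ⟨w, by omega, by omega, ?_⟩
  have hwX : w + X ≤ J := by omega
  have hdl := det_line (r := r) (X := X) (C := C) (P := P) (S := S) (ys := ys) (gs := gs)
    hO hi (show j ≤ M by omega) (show w₀ + j * z ≤ w by omega) (show w ≤ J by omega)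
  have hkX : k' + 1 ≤ X := by omega
  have key := P2_near hq.nonneg (D.wn J w) _ hdl (fun ω => Pool.P4.tq J w X (D.T ω))
    (2 ^ (X - (k' + 1))) (by positivity)
  have key2 : P2 q (D.wn J w) (fun ω ω' => |((Pool.P4.tq J w X (D.T ω) : ℤ) -
      Pool.P4.tq J w X (D.T ω') : ℤ)| < 2 * (2 ^ (X - (k' + 1)) : ℕ)) ≤ η / 4 := by
    refine (P2_le_of hq.nonneg (fun _ _ _ _ e => e) (fun _ _ _ _ e => e)
      (fun ω ω' _ _ e hA => ?_)).trans hnear
    refine tq_near hwX (by omega) (Prod.ext_iff.1 e).2 ?_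
    have e1 : (2 : ℤ) ^ (X - k') = 2 * (2 ^ (X - (k' + 1)) : ℕ) := by
      push_cast
      rw [← pow_succ']
      congr 1
      omega
    rw [e1]
    exact hA
  unfold Pool.QT64.QH.TM
  refine (le_of_eq (Pb_two (Ω := D.Ω) (p := q) hq.nonneg
    (Pool.P4.qh (c := c) (k := k) D J w z i j r X C P S ys gs q).line (fun ω ω' =>
    |(((Pool.P4.qh (c := c) (k := k) D J w z i j r X C P S ys gs q).tau
        ((Pool.P4.qh (c := c) (k := k) D J w z i j r X C P S ys gs q).th ω) -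
      (Pool.P4.qh (c := c) (k := k) D J w z i j r X C P S ys gs q).tau
        ((Pool.P4.qh (c := c) (k := k) D J w z i j r X C P S ys gs q).th ω') : ℤ) : ℝ)| ≤
      1 / 2 ^ (k' + 1) * 2 ^ X))).trans ?_
  refine (P2_le_of hq.nonneg (fun _ _ _ _ e => e) (fun _ _ _ _ e => e)
    (fun ω ω' _ _ _ hA => ?_)).trans (key.trans (by linarith))
  have e1 : (1 : ℝ) / 2 ^ (k' + 1) * 2 ^ X = (((2 ^ (X - (k' + 1)) : ℕ) : ℤ) : ℝ) := by
    push_cast
    rw [div_mul_eq_mul_div, one_mul, div_eq_iff (by positivity), ← pow_add]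
    congr 1
    omega
  rw [e1, ← Int.cast_abs, Int.cast_le] at hA
  exact hA

end Pool.P4T
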