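import Pool.Agent.H35.P4.Red
import Pool.Agent.H14.P4.Thin
import Pool.Agent.H7.MIC.LLf

/-!
# P4: the reduction to cells with collinear contexts, thin labels

`red2`: the local theorem in the cells with `DMA` and `LLC` (constant `CL` given before the size of
the cell) gives the local theorem `P4T`.
-/

set_option autoImplicit false

namespace Pool.P4

open Finset Real MvPolynomial
open Pool.Agent.H49.Ent Pool.Agent.H32.Dense Pool.STK Pool.STAT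
open Pool.BFL (Pb)

/-- **P4**, in a cell with the additional laws. -/
def P4X2 (n K A B : ℕ) (gam : ℕ → ℝ) (R : ℕ → Prop) (C₁ CL h δ : ℝ) : Prop :=
  ∃ (M Q K' : ℕ) (η' κ ϖ : ℝ) (z₀ : ℕ), 0 < η' ∧ 0 < κ ∧ 0 < ϖ ∧ ϖ ≤ 1 ∧
    ∀ (lam : ℕ → ℝ) (J a₀ w₀ z : ℕ) (D : NDat2) (q : D.Ω → ℝ) (U : GnL D),
      (∀ l, 1 ≤ l → l ≤ n → lam l = 1) → z₀ ≤ z →
      D.Ok2 n K J a₀ w₀ z M lam gam κ C₁ q → D.DMA z M κ q → LLC D n z M CL q →
      D.TmU J w₀ z κ q → D.NF n z M B gam h C₁ ϖ q → NFc D n z M B gam (h + δ) C₁ q →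
      U.Ok n K J a₀ w₀ z M Q R C₁ q →
      ∃ l, 1 ≤ l ∧ l ≤ n ∧ (l = n ∨ (R l ∧ gr gam n l)) ∧ ∃ i ≤ M, ∃ j ≤ M,
        NewLabT D U J a₀ w₀ z Q R i j l A K' η' q

/-- All slopes may be `1`. -/
theorem ok2_one {D : NDat2} {n K J a₀ w₀ z M : ℕ} {lam gam : ℕ → ℝ} {κ C₁ : ℝ} {q : D.Ω → ℝ}
    (h : D.Ok2 n K J a₀ w₀ z M lam gam κ C₁ q) (h1 : ∀ l, 1 ≤ l → l ≤ n → lam l = 1) :
    D.Ok2 n K J a₀ w₀ z M (fun _ => 1) gam κ C₁ q := by
  have g2 : ∀ i ≤ M, ∀ j ≤ M, ∀ l, 1 ≤ l → l ≤ n →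
      |(D.g i j l : ℝ) - D.g 0 0 l - (1 * i + gam l * j) * z| ≤ C₁ * z := by
    intro i hi j hj l l1 l2
    have h3 := h.hom i hi j hj l l1 l2
    rwa [h1 l l1 l2] at h3
  first
    | exact { h with
        lam_ge := fun _ => le_rfl
        hom := g2 }
    | exact { h with
        lam_ge := ⟨fun _ => one_pos, le_rfl⟩
        hom := g2 }

/-- The context of a smaller radius. -/
theorem det_c2 {D : NDat2} {n K J a₀ w₀ z M : ℕ} {lam gam : ℕ → ℝ} {κ C₁ : ℝ} {q : D.Ω → ℝ}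
    (hO : D.Ok2 n K J a₀ w₀ z M lam gam κ C₁ q) {i i' j : ℕ} (hi : i ≤ M) (hj : j ≤ M)
    (h : i' ≤ i) : Det q (D.c i j) (D.c i' j) := by
  obtain ⟨d, rfl⟩ := Nat.exists_eq_add_of_le h
  clear h
  induction d with
  | zero => exact fun ω ω' _ _ h => h
  | succ d ih =>
    intro ω ω' h1 h2 h3
    exact ih (by omega) ω ω' h1 h2 (hO.c_i (i' + d) (by omega) j hj ω ω' h1 h2 h3)

/-- **The closed lower bound of the target in a sub-cell.** -/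
theorem NFc.sc {D : NDat2} {n K J a₀ w₀ z M i₀ j₀ N M' B : ℕ} {lam gam : ℕ → ℝ} {κ C₁ h : ℝ}
    {q : D.Ω → ℝ} (hN : NFc D n z M B gam h C₁ q)
    (hO : D.Ok2 n K J a₀ w₀ z M lam gam κ C₁ q) (hG : NDat2.SubG i₀ j₀ N M' M)
    (hg : 0 ≤ gam n) (hC : 0 ≤ C₁) :
    NFc (D.sc J w₀ i₀ j₀ N z) n (N * z) M' B gam h C₁ q := by
  intro i hi1 hi j hj s hs U hU hU'
  have hz : (0 : ℝ) ≤ z := Nat.cast_nonneg z
  have hN1 := hG.N_pos
  have hNr : (1 : ℝ) ≤ N := by exact_mod_cast hN1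
  have ei : (i - 1) * N + N = i * N := by
    have : i = i - 1 + 1 := by omega
    conv_rhs => rw [this, Nat.add_mul, Nat.one_mul]
  have ej : (j - s) * N + s * N = j * N := by
    rw [← Nat.add_mul, Nat.sub_add_cancel hs]
  have h1 := hN (i₀ + i * N) (by omega) (hG.lei hi) (j₀ + j * N) (hG.lej hj) (s * N) (by omega)
    (U * N) (by
      have h2 := hG.lei hU
      rw [Nat.add_mul] at h2
      omega) (by
      have h2 : (((j₀ + M' * N : ℕ)) : ℝ) ≤ M := by exact_mod_cast hG.lej le_rfl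
      have h3 : (0 : ℝ) ≤ N := Nat.cast_nonneg N
      have h4 := mul_le_mul_of_nonneg_right hU' h3
      have h5 : gam n * ((M' - j) * N) ≤ gam n * (M - ((j₀ + j * N : ℕ) : ℝ)) := by
        refine mul_le_mul_of_nonneg_left ?_ hg
        push_cast at h2 ⊢
        linarith
      push_cast at h5 ⊢
      linarith)
  have e1 : U * N * z = U * (N * z) := by ring
  rw [e1, show j₀ + j * N - s * N = j₀ + (j - s) * N by omega] at h1
  refine le_trans ?_ (h1.trans (CH_mono_cond hO.isLaw.nonneg fun ω ω' x x' e => ?_))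
  · have h2 : C₁ * z ≤ C₁ * (N * z) :=
      mul_le_mul_of_nonneg_left (le_mul_of_one_le_left hz hNr) hC
    push_cast
    have h3 : (U : ℝ) * N * z = U * (N * z) := by ring
    rw [h3]
    linarith
  · have e2 := (Prod.ext_iff.1 e).1
    have e3 := (Prod.ext_iff.1 e).2
    have e4 := (Prod.ext_iff.1 e3).1
    have e5 := (Prod.ext_iff.1 e3).2
    have e6 := (Prod.ext_iff.1 e5).1
    have e7 := (Prod.ext_iff.1 e5).2
    have e8 : D.c (i₀ + (i - 1) * N) (j₀ + (j - s) * N) ω =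
        D.c (i₀ + (i - 1) * N) (j₀ + (j - s) * N) ω' :=
      det_c2 hO (i := i₀ + i * N - 1) (by have := hG.lei hi; omega)
        (hG.lej ((Nat.sub_le _ _).trans hj)) (by omega) ω ω' x x' e6
    exact Prod.ext e2 (Prod.ext e4 (Prod.ext e8 e7))

/-- The labels with gain in a sub-cell. -/
def GnL.sc {D : NDat2} (U : GnL D) (J w₀ i₀ j₀ N z : ℕ) : GnL (D.sc J w₀ i₀ j₀ N z) where
  UD := U.UD
  UL := fun l x => U.UL l (x.1.1, x.2 / 2 ^ (j₀ * z))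
  pr := U.pr

theorem GnL.sc_wn {D : NDat2} (U : GnL D) {J w₀ i₀ j₀ N z : ℕ} (hJ : w₀ + j₀ * z ≤ J) (l : ℕ)
    (ω : D.Ω) : (U.sc J w₀ i₀ j₀ N z).UL l ((D.sc J w₀ i₀ j₀ N z).wn J (w₀ + j₀ * z) ω) =
      U.UL l (D.wn J w₀ ω) := by
  show U.UL l (D.ln ω, D.T ω / 2 ^ (J - (w₀ + j₀ * z)) / 2 ^ (j₀ * z)) =
    U.UL l (D.ln ω, D.T ω / 2 ^ (J - w₀))
  rw [Nat.div_div_eq_div_mul, ← pow_add, show J - (w₀ + j₀ * z) + j₀ * z = J - w₀ by omega]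

/-- The natural boxes of a sub-cell. -/
theorem nb_sc {D : NDat2} {J a₀ w₀ z i₀ j₀ N i j m : ℕ} {ω : D.Ω} {b : ℕ → ℝ} :
    (D.sc J w₀ i₀ j₀ N z).NB i j (a₀ + i₀ * z + i * (N * z)) m ω b ↔
      D.NB (i₀ + i * N) (j₀ + j * N) (a₀ + (i₀ + i * N) * z) m ω b := by
  rw [show a₀ + i₀ * z + i * (N * z) = a₀ + (i₀ + i * N) * z by ring]
  exact Iff.rfl

/-- **The labels with gain hold in a sub-cell.** -/
theorem GnL.Ok.sc {D : NDat2} {U : GnL D} {n K J a₀ w₀ z M Q Q' i₀ j₀ N M' : ℕ} {R : ℕ → Prop}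
    {C₁ : ℝ} {q : D.Ω → ℝ} (h : U.Ok n K J a₀ w₀ z M Q R C₁ q)
    (hG : NDat2.SubG i₀ j₀ N M' M) (hC : 0 ≤ C₁) (hQ : Q' * N ≤ Q) (hJ : w₀ + j₀ * z ≤ J) :
    (U.sc J w₀ i₀ j₀ N z).Ok n K J (a₀ + i₀ * z) (w₀ + j₀ * z) (N * z) M' Q' R C₁ q where
  degD := h.degD
  degL := fun l x => h.degL l _
  varD := h.varD
  varL := fun l x => h.varL l _
  deep := fun l l1 l2 hR i hi j hj => by
    have h1 := h.deep l l1 l2 hR _ (hG.lei hi) _ (hG.lej hj)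
    have h2 : Q' * (N * z) ≤ Q * z := by
      rw [← Nat.mul_assoc]
      exact Nat.mul_le_mul_right z hQ
    show D.g (i₀ + i * N) (j₀ + j * N) l + Q' * (N * z) ≤ U.pr l
    omega
  own := h.own
  two := fun l l1 l2 hR i hi j hj ω hω b hb => by
    have h1 := h.two l l1 l2 hR _ (hG.lei hi) _ (hG.lej hj) ω hω b (nb_sc.1 hb)
    have e := U.sc_wn (i₀ := i₀) (N := N) hJ l ω
    show |eval b (U.UD l (D.pt ω)) - eval b ((U.sc J w₀ i₀ j₀ N z).UL l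
      ((D.sc J w₀ i₀ j₀ N z).wn J (w₀ + j₀ * z) ω))| ≤ 1 / 2 ^ U.pr l
    rw [e]
    exact h1
  near := fun l l1 l2 hR i hi j hj ω hω b hb => by
    have h1 := h.near l l1 l2 hR _ (hG.lei hi) _ (hG.lej hj) ω hω b (nb_sc.1 hb)
    refine h1.trans (div_le_div_of_nonneg_right (exp_le_exp.2 ?_) (by positivity))
    refine mul_le_mul_of_nonneg_left ?_ hC
    exact_mod_cast Nat.le_mul_of_pos_left z hG.N_pos

/-- **A new thin label of a sub-cell is one of the cell.** -/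
theorem NewLabT.of_sc {D : NDat2} {U : GnL D} {J a₀ w₀ z M Q Q' i₀ j₀ N M' : ℕ} {R : ℕ → Prop}
    {q : D.Ω → ℝ} {i j l A K' : ℕ} {η' : ℝ} (hq : ∀ ω, 0 ≤ q ω)
    (hG : NDat2.SubG i₀ j₀ N M' M) (hth : w₀ + (M + 1) * z ≤ a₀) (htp : a₀ + (M + 1) * z ≤ J)
    (hj : j ≤ M') (hQ : Q' * N ≤ Q)
    (h : NewLabT (D.sc J w₀ i₀ j₀ N z) (U.sc J w₀ i₀ j₀ N z) J (a₀ + i₀ * z) (w₀ + j₀ * z)
      (N * z) Q' R i j l A K' η' q) :
    NewLabT D U J a₀ w₀ z Q R (i₀ + i * N) (j₀ + j * N) l A K' η' q := by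
  obtain ⟨Gn, Hn, h1, h2, h3⟩ := h
  obtain ⟨w1, w2⟩ := hG.wle hth htp hj (Nat.zero_le _)
  rw [Nat.add_zero] at w1 w2
  refine ⟨Gn, fun x => Hn ((x.1, x.2 / 2 ^ ((w₀ + (j₀ + j * N) * z) - (w₀ + j₀ * z))), x.2), h1,
    fun x => h2 _, h3.trans (Pool.Agent.H39.BFL.Pb_mono hq fun ω hω hh => ?_)⟩
  obtain ⟨g1, g2⟩ := hh
  have eA : (1 : ℝ) / 2 ^ (D.g (i₀ + i * N) (j₀ + j * N) l + A * (N * z)) ≤
      1 / 2 ^ (D.g (i₀ + i * N) (j₀ + j * N) l + A * z) := by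
    refine one_div_le_one_div_of_le (by positivity) (pow_le_pow_right₀ one_le_two ?_)
    have := Nat.mul_le_mul_left A (Nat.le_mul_of_pos_left z hG.N_pos)
    omega
  refine ⟨g1.trans eA, fun b hb => ?_⟩
  have g3 := g2 b (by
    refine ⟨?_, fun u u1 u2 => ⟨(hb.2 u u1 u2).1, fun hR => ?_⟩⟩
    · rw [show a₀ + i₀ * z + i * (N * z) = a₀ + (i₀ + i * N) * z by ring]
      exact hb.1
    · refine ((hb.2 u u1 u2).2 hR).trans ?_
      refine one_div_le_one_div_of_le (by positivity) (pow_le_pow_right₀ one_le_two ?_)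
      have h4 : Q' * (N * z) ≤ Q * z := by
        rw [← Nat.mul_assoc]
        exact Nat.mul_le_mul_right z hQ
      exact Nat.add_le_add_left h4 _)
  have e2 : (D.sc J w₀ i₀ j₀ N z).wn J (w₀ + j₀ * z + j * (N * z)) ω =
      (((D.wn J (w₀ + (j₀ + j * N) * z) ω).1, (D.wn J (w₀ + (j₀ + j * N) * z) ω).2 /
        2 ^ ((w₀ + (j₀ + j * N) * z) - (w₀ + j₀ * z))),
        (D.wn J (w₀ + (j₀ + j * N) * z) ω).2) := by
    have e3 : w₀ + j₀ * z + j * (N * z) = w₀ + (j₀ + j * N) * z := by ring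
    rw [e3]
    refine Prod.ext (Prod.ext rfl ?_) rfl
    show D.T ω / 2 ^ (J - (w₀ + j₀ * z)) = D.T ω / 2 ^ (J - (w₀ + (j₀ + j * N) * z)) / _
    exact Pool.TMU.win_div _ w1 w2
  rw [e2] at g3
  exact g3.trans eA

/-- **The reduction.** -/
theorem red2 {n K A B : ℕ} {gam : ℕ → ℝ} {R : ℕ → Prop} {C₁ h δ : ℝ} (hn : 1 ≤ n)
    (hgam : ∀ l, 0 ≤ gam l) (hC : 1 ≤ C₁) (H : ∀ CL : ℝ, P4X2 n K A B gam R C₁ CL h δ) :
    P4T n K A B gam R C₁ h δ := by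
  obtain ⟨CL, -, hL⟩ := Pool.MIC7.llc_all n K (fun _ => 1) gam C₁ hC (fun _ _ _ => le_rfl) hgam
  obtain ⟨M', Q', K', η', κ', ϖ, z₁, hη', hκ', hϖ, hϖ1, H⟩ := H CL
  obtain ⟨κ₃, z₃, hκ₃, hL⟩ : ∃ (κ₀ : ℝ) (z₀ : ℕ), 0 < κ₀ ∧
      ∀ (J a₀ w₀ z : ℕ) (κ κ' : ℝ) (D : NDat2) (q : D.Ω → ℝ), z₀ ≤ z → κ ≤ κ₀ → κ' ≤ 1 →
      D.Ok2 n K J a₀ w₀ z M' (fun _ => 1) gam κ C₁ q → D.DMP z M' κ' q →
      LLC D n z M' CL q := by
    rcases Nat.lt_or_ge M' 2 with hM | hM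
    · refine ⟨1, 0, one_pos, ?_⟩
      intro J a₀ w₀ z κ κ' D q _ _ _ _ _ i j r U h1 h2 h3 h4
      omega
    · obtain ⟨κ₀, z₀, h1, h2⟩ := hL M' hM
      exact ⟨κ₀, z₀, h1, fun J a₀ w₀ z κ κ' D q a b c d e i j r U =>
        h2 J a₀ w₀ z κ κ' D q a b c d e i j r U⟩
  obtain ⟨κs, hκs⟩ : ∃ κs : ℝ, κs = min κ' (min κ₃ 1) := ⟨_, rfl⟩
  have hs0 : 0 < κs := by rw [hκs]; exact lt_min hκ' (lt_min hκ₃ one_pos)
  have hs1 : κs ≤ κ' := by rw [hκs]; exact min_le_left _ _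
  have hs2 : κs ≤ κ₃ := by rw [hκs]; exact (min_le_right _ _).trans (min_le_left _ _)
  have hs3 : κs ≤ 1 := by rw [hκs]; exact (min_le_right _ _).trans (min_le_right _ _)
  obtain ⟨M, κ, z₂, hκ, H2⟩ := sub_dmp n K hn (fun _ => 1) gam (fun _ _ _ => le_rfl) hgam C₁
    (by linarith) M' 2 κs hs0
  refine ⟨M, Q' * (M + 1), K', η', min κ κs, ϖ, max z₁ (max z₂ z₃), hη', lt_min hκ hs0, hϖ, hϖ1,
    ?_⟩
  intro lam J a₀ w₀ z D q U hlam hz hO' hN hNc hT hU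
  have hz1 : z₁ ≤ z := (le_max_left _ _).trans hz
  have hz2 : z₂ ≤ z := ((le_max_left _ _).trans (le_max_right _ _)).trans hz
  have hz3 : z₃ ≤ z := ((le_max_right _ _).trans (le_max_right _ _)).trans hz
  have hO := ok2_one hO' hlam
  obtain ⟨N, i₀, j₀, hN2, hG, -, hF, hP⟩ := H2 J a₀ w₀ z D q hz2 (hO.mono_κ (min_le_left _ _))
  have hNR : (2 : ℝ) ≤ N := by exact_mod_cast hN2
  have hκN : min κ κs ≤ κs * N := by
    have h1 : κs * 1 ≤ κs * N := mul_le_mul_of_nonneg_left (by linarith) hs0.le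
    exact (min_le_right _ _).trans (by linarith)
  have hC0 : 0 ≤ C₁ := by linarith
  have hCN : C₁ ≤ C₁ * N := by
    have h1 : C₁ * 1 ≤ C₁ * N := mul_le_mul_of_nonneg_left (by linarith) hC0
    linarith
  have hNM : N ≤ M + 1 := by
    have h1 := hG.i_le
    have h2 : N ≤ (M' + 1) * N := Nat.le_mul_of_pos_left N (by omega)
    omega
  have hQ : Q' * N ≤ Q' * (M + 1) := Nat.mul_le_mul_left Q' hNM
  have hzN : z ≤ N * z := Nat.le_mul_of_pos_left _ (by omega)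
  have hj₀ : w₀ + j₀ * z ≤ J := by
    have h1 := hG.lej (Nat.zero_le M')
    rw [Nat.zero_mul, Nat.add_zero] at h1
    have h2 : j₀ * z ≤ (M + 1) * z := Nat.mul_le_mul_right z (by omega)
    have h3 := hO.thin
    have h4 := hO.top
    omega
  have hOs := hO.sc hG hN2 hC0 hκN
  obtain ⟨l, l1, l2, hl, i, hi, j, hj, hlab⟩ := H (fun _ => 1) J (a₀ + i₀ * z) (w₀ + j₀ * z)
    (N * z) (D.sc J w₀ i₀ j₀ N z) q (U.sc J w₀ i₀ j₀ N z) (fun _ _ _ => rfl) (hz1.trans hzN)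
    (hOs.mono_κ hs1) (hF.mono hs1)
    (hL J (a₀ + i₀ * z) (w₀ + j₀ * z) (N * z) κs κs (D.sc J w₀ i₀ j₀ N z) q (hz3.trans hzN) hs2
      hs3 hOs hP)
    (by
      have h1 := hT.sc hO hG hκN
      unfold NDat2.TmU at h1 ⊢
      have h2 : κs * ((N * z : ℕ) : ℝ) ≤ κ' * ((N * z : ℕ) : ℝ) :=
        mul_le_mul_of_nonneg_right hs1 (Nat.cast_nonneg _)
      linarith)
    (hN.sc hG (hgam n) hCN) (hNc.sc hO hG (hgam n) hC0)
    (hU.sc hG hC0 hQ hj₀)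
  exact ⟨l, l1, l2, hl, _, hG.lei hi, _, hG.lej hj,
    NewLabT.of_sc hO.isLaw.nonneg hG hO.thin hO.top hj hQ hlab⟩

end Pool.P4
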