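import Pool.Agent.H14.P4.Def
import Pool.Agent.H7.MIC.LLe

/-!
# P4: the reduction to cells with collinear contexts

Every cell has a sub-cell with `LLA`, `DMA`, `DMP` (`lla_dmp`); the axioms, the nonfull rows, the
uniform time hold in the sub-cell, and a new label of a coordinate of the sub-cell is one of the
cell.
-/

set_option autoImplicit false

namespace Pool.STAT.NDat2

open Pool.Agent.H49.Ent Pool.Agent.H32.Dense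

variable {D : NDat2} {J a₀ w₀ z M i₀ j₀ N M' : ℕ} {q : D.Ω → ℝ}

/-- **A new label of a coordinate of a sub-cell is one of the cell.** -/
theorem NewLab2.of_sc {i j l A K' : ℕ} {η' : ℝ} (hq : ∀ ω, 0 ≤ q ω) (hG : SubG i₀ j₀ N M' M)
    (hth : w₀ + (M + 1) * z ≤ a₀) (htp : a₀ + (M + 1) * z ≤ J) (hj : j ≤ M')
    (h : (D.sc J w₀ i₀ j₀ N z).NewLab2 J (a₀ + i₀ * z) (w₀ + j₀ * z) (N * z) i j l A K' η' q) :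
    D.NewLab2 J a₀ w₀ z (i₀ + i * N) (j₀ + j * N) l (A * N) K' η' q := by
  obtain ⟨Gn, Hn, h1, h2, h3⟩ := h
  obtain ⟨w1, w2⟩ := hG.wle hth htp hj (Nat.zero_le _)
  rw [Nat.add_zero] at w1 w2
  refine ⟨Gn, fun x => Hn ((x.1, x.2 / 2 ^ ((w₀ + (j₀ + j * N) * z) - (w₀ + j₀ * z))), x.2), h1,
    fun x => h2 _, h3.trans (Pool.Agent.H39.BFL.Pb_mono hq fun ω hω hh => ?_)⟩
  obtain ⟨g1, g2⟩ := hh
  have eA : A * N * z = A * (N * z) := by ring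
  rw [eA]
  refine ⟨g1, fun b hb => ?_⟩
  have g3 := g2 b (by rw [ea]; exact hb)
  have e2 : (D.sc J w₀ i₀ j₀ N z).wn J (w₀ + j₀ * z + j * (N * z)) ω =
      (((D.wn J (w₀ + (j₀ + j * N) * z) ω).1, (D.wn J (w₀ + (j₀ + j * N) * z) ω).2 /
        2 ^ ((w₀ + (j₀ + j * N) * z) - (w₀ + j₀ * z))),
        (D.wn J (w₀ + (j₀ + j * N) * z) ω).2) := by
    have e3 : w₀ + j₀ * z + j * (N * z) = w₀ + (j₀ + j * N) * z := by ring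
    rw [e3]
    refine Prod.ext (Prod.ext rfl ?_) rfl
    show D.T ω / 2 ^ (J - (w₀ + j₀ * z)) = D.T ω / 2 ^ (J - (w₀ + (j₀ + j * N) * z)) / _
    exact Pool.TMU.win_div _ w1 w2
  rw [e2] at g3
  exact g3

/-- The axioms of a cell use the slopes of the coordinates `1, …, n` only. -/
theorem Ok2.one_lam {n K : ℕ} {lam gam : ℕ → ℝ} {κ C₁ : ℝ}
    (h : D.Ok2 n K J a₀ w₀ z M lam gam κ C₁ q) (h1 : ∀ l, 1 ≤ l → l ≤ n → 1 ≤ lam l) :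
    D.Ok2 n K J a₀ w₀ z M (fun l => if 1 ≤ l ∧ l ≤ n then lam l else 1) gam κ C₁ q := by
  have g1 : ∀ l, (1 : ℝ) ≤ if 1 ≤ l ∧ l ≤ n then lam l else 1 := by
    intro l
    by_cases hl : 1 ≤ l ∧ l ≤ n
    · rw [if_pos hl]
      exact h1 l hl.1 hl.2
    · rw [if_neg hl]
  have g2 : ∀ i ≤ M, ∀ j ≤ M, ∀ l, 1 ≤ l → l ≤ n →
      |(D.g i j l : ℝ) - D.g 0 0 l -
        ((if 1 ≤ l ∧ l ≤ n then lam l else 1) * i + gam l * j) * z| ≤ C₁ * z := by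
    intro i hi j hj l l1 l2
    rw [if_pos ⟨l1, l2⟩]
    exact h.hom i hi j hj l l1 l2
  first
    | exact { h with
        lam_ge := g1
        hom := g2 }
    | exact { h with
        lam_ge := ⟨fun l => lt_of_lt_of_le one_pos (g1 l), g1 n⟩
        hom := g2 }

end Pool.STAT.NDat2

namespace Pool.P4

open Finset Real MvPolynomial
open Pool.Agent.H49.Ent Pool.Agent.H32.Dense Pool.STK Pool.STAT
open Pool.BFL (Pb)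

/-- A new label of one of the coordinates in `Ls`. -/
def ConL (Ls : ℕ → Prop) (D : NDat2) (n J a₀ w₀ z M A K' : ℕ) (η' : ℝ) (q : D.Ω → ℝ) : Prop :=
  ∃ l, Ls l ∧ l ≤ n ∧ ∃ i ≤ M, ∃ j ≤ M, D.NewLab2 J a₀ w₀ z i j l A K' η' q

/-- **The local theorem with `LLA`, `DMA`, `DMP`.** -/
def P4P (Ls : ℕ → Prop) (n K A B : ℕ) (lam gam : ℕ → ℝ) (C₁ h : ℝ) : Prop :=
  ∃ (M K' : ℕ) (η' κ ϖ : ℝ) (z₀ : ℕ), 0 < η' ∧ 0 < κ ∧ 0 < ϖ ∧ ϖ ≤ 1 ∧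
    ∀ (J a₀ w₀ z : ℕ) (D : NDat2) (q : D.Ω → ℝ), z₀ ≤ z →
      D.Ok2 n K J a₀ w₀ z M lam gam κ C₁ q → D.NF n z M B gam h C₁ ϖ q → D.TmU J w₀ z κ q →
      D.LLA n z M lam gam κ q → D.DMA z M κ q → D.DMP z M κ q →
      ConL Ls D n J a₀ w₀ z M A K' η' q

/-- **The local theorem.** -/
def P4F (Ls : ℕ → Prop) (n K A B : ℕ) (lam gam : ℕ → ℝ) (C₁ h : ℝ) : Prop :=
  ∃ (M K' : ℕ) (η' κ ϖ : ℝ) (z₀ : ℕ), 0 < η' ∧ 0 < κ ∧ 0 < ϖ ∧ ϖ ≤ 1 ∧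
    ∀ (J a₀ w₀ z : ℕ) (D : NDat2) (q : D.Ω → ℝ), z₀ ≤ z →
      D.Ok2 n K J a₀ w₀ z M lam gam κ C₁ q → D.NF n z M B gam h C₁ ϖ q → D.TmU J w₀ z κ q →
      ConL Ls D n J a₀ w₀ z M A K' η' q

/-- Own leaves depend on the slopes of the coordinates `1, …, n` only. -/
theorem lla_one {D : NDat2} {n z M : ℕ} {lam gam : ℕ → ℝ} {κ : ℝ} {q : D.Ω → ℝ} (hn : 1 ≤ n)
    (h : D.LLA n z M (fun l => if 1 ≤ l ∧ l ≤ n then lam l else 1) gam κ q) :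
    D.LLA n z M lam gam κ q := by
  refine ⟨fun i j u₁ u₂ U a1 a2 a3 a4 a5 => h.v i j u₁ u₂ U a1 a2 a3 a4 fun l l1 l2 => ?_,
    fun i j u₁ u₂ U U' a1 a2 a3 a4 a5 a6 a7 => h.h i j u₁ u₂ U U' a1 a2 a3 a4 a5
      (fun l l1 l2 => ?_) ?_⟩
  · have h1 := a5 l l1 l2
    simp only [if_pos (⟨l1, l2.le⟩ : 1 ≤ l ∧ l ≤ n)]
    exact h1
  · have h1 := a6 l l1 l2
    simp only [if_pos (⟨l1, l2.le⟩ : 1 ≤ l ∧ l ≤ n)]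
    exact h1
  · simp only [if_pos (⟨hn, le_rfl⟩ : 1 ≤ n ∧ n ≤ n)]
    exact a7

/-- **Sub-cells**, any slopes `≥ 1` of the coordinates `1, …, n`. -/
theorem sub_dmp (n K : ℕ) (hn : 1 ≤ n) (lam gam : ℕ → ℝ) (hlam : ∀ l, 1 ≤ l → l ≤ n → 1 ≤ lam l)
    (hgam : ∀ l, 0 ≤ gam l) (C₁ : ℝ) (hC : 0 ≤ C₁) (M' m₀ : ℕ) (κ' : ℝ) (hκ' : 0 < κ') :
    ∃ (M : ℕ) (κ : ℝ) (z₀ : ℕ), 0 < κ ∧ ∀ (J a₀ w₀ z : ℕ) (D : NDat2) (q : D.Ω → ℝ), z₀ ≤ z →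
      D.Ok2 n K J a₀ w₀ z M lam gam κ C₁ q → ∃ (N i₀ j₀ : ℕ), m₀ ≤ N ∧ NDat2.SubG i₀ j₀ N M' M ∧
      (D.sc J w₀ i₀ j₀ N z).LLA n (N * z) M' lam gam κ' q ∧
      (D.sc J w₀ i₀ j₀ N z).DMA (N * z) M' κ' q ∧
      (D.sc J w₀ i₀ j₀ N z).DMP (N * z) M' κ' q := by
  have g1 : ∀ l, (1 : ℝ) ≤ (fun l => if 1 ≤ l ∧ l ≤ n then lam l else 1) l := by
    intro l
    by_cases hl : 1 ≤ l ∧ l ≤ n
    · simp only [if_pos hl]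
      exact hlam l hl.1 hl.2
    · simp only [if_neg hl]
      exact le_rfl
  have hsub := by
    first
      | exact Pool.MIC7.lla_dmp n K hn (fun l => if 1 ≤ l ∧ l ≤ n then lam l else 1) gam g1 hgam
          C₁ hC M' m₀ κ' hκ'
      | exact Pool.MIC7.lla_dmp n K hn (fun l => if 1 ≤ l ∧ l ≤ n then lam l else 1) gam
          ⟨fun l => lt_of_lt_of_le one_pos (g1 l), g1 n⟩ hgam C₁ hC M' m₀ κ' hκ'
  obtain ⟨M, κ, z₀, hκ, H⟩ := hsub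
  refine ⟨M, κ, z₀, hκ, fun J a₀ w₀ z D q hz hO => ?_⟩
  obtain ⟨N, i₀, j₀, h1, h2, h3, h4, h5⟩ := H J a₀ w₀ z D q hz (hO.one_lam hlam)
  exact ⟨N, i₀, j₀, h1, h2, lla_one hn h3, h4, h5⟩

/-- **The reduction**, any further fields: `F` holds in the cell, `G` in the sub-cell. -/
theorem redG {Ls : ℕ → Prop} {n K A B : ℕ} {lam gam : ℕ → ℝ} {C₁ h : ℝ} (hn : 1 ≤ n)
    (hlam : ∀ l, 1 ≤ l → l ≤ n → 1 ≤ lam l) (hgam : ∀ l, 0 ≤ gam l) (hC : 0 ≤ C₁)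
    (F G : ∀ (D : NDat2) (z M : ℕ) (κ : ℝ), (D.Ω → ℝ) → Prop)
    (hFG : ∀ (D : NDat2) (J w₀ z M i₀ j₀ N M' : ℕ) (κ κ' : ℝ) (q : D.Ω → ℝ),
      NDat2.SubG i₀ j₀ N M' M → κ ≤ κ' * N → F D z M κ q →
      G (D.sc J w₀ i₀ j₀ N z) (N * z) M' κ' q)
    (H : ∃ (M K' : ℕ) (η' κ ϖ : ℝ) (z₀ : ℕ), 0 < η' ∧ 0 < κ ∧ 0 < ϖ ∧ ϖ ≤ 1 ∧
      ∀ (J a₀ w₀ z : ℕ) (D : NDat2) (q : D.Ω → ℝ), z₀ ≤ z →
      D.Ok2 n K J a₀ w₀ z M lam gam κ C₁ q → D.NF n z M B gam h C₁ ϖ q → D.TmU J w₀ z κ q →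
      G D z M κ q → D.LLA n z M lam gam κ q → D.DMA z M κ q → D.DMP z M κ q →
      ConL Ls D n J a₀ w₀ z M A K' η' q) :
    ∃ (M K' : ℕ) (η' κ ϖ : ℝ) (z₀ : ℕ), 0 < η' ∧ 0 < κ ∧ 0 < ϖ ∧ ϖ ≤ 1 ∧
      ∀ (J a₀ w₀ z : ℕ) (D : NDat2) (q : D.Ω → ℝ), z₀ ≤ z →
      D.Ok2 n K J a₀ w₀ z M lam gam κ C₁ q → D.NF n z M B gam h C₁ ϖ q → D.TmU J w₀ z κ q →
      F D z M κ q → ConL Ls D n J a₀ w₀ z M A K' η' q := by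
  obtain ⟨M', K', η', κ', ϖ, z₁, hη', hκ', hϖ, hϖ1, H⟩ := H
  obtain ⟨M, κ, z₂, hκ, H2⟩ := sub_dmp n K hn lam gam hlam hgam C₁ hC M' 2 κ' hκ'
  refine ⟨M, K', η', min κ κ', ϖ, max z₁ z₂, hη', lt_min hκ hκ', hϖ, hϖ1, ?_⟩
  intro J a₀ w₀ z D q hz hO hN hT hL
  have hz1 : z₁ ≤ z := (le_max_left _ _).trans hz
  have hz2 : z₂ ≤ z := (le_max_right _ _).trans hz
  obtain ⟨N, i₀, j₀, hN2, hG, hA, hF, hP⟩ := H2 J a₀ w₀ z D q hz2 (hO.mono_κ (min_le_left _ _))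
  have hNR : (2 : ℝ) ≤ N := by exact_mod_cast hN2
  have hκN : min κ κ' ≤ κ' * N := by
    have h1 : κ' * 1 ≤ κ' * N := mul_le_mul_of_nonneg_left (by linarith) hκ'.le
    exact (min_le_right _ _).trans (by linarith)
  have hCN : C₁ ≤ C₁ * N := by
    have h1 : C₁ * 1 ≤ C₁ * N := mul_le_mul_of_nonneg_left (by linarith) hC
    linarith
  obtain ⟨l, hl, hln, i, hi, j, hj, hlab⟩ := H J (a₀ + i₀ * z) (w₀ + j₀ * z) (N * z)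
    (D.sc J w₀ i₀ j₀ N z) q (hz1.trans (Nat.le_mul_of_pos_left _ (by omega)))
    (hO.sc hG hN2 hC hκN) (hN.sc hG (hgam n) hCN) (hT.sc hO hG hκN)
    (hFG D J w₀ z M i₀ j₀ N M' _ κ' q hG hκN hL) hA hF hP
  have h3 := NDat2.NewLab2.of_sc hO.isLaw.nonneg hG hO.thin hO.top hj hlab
  exact ⟨l, hl, hln, _, hG.lei hi, _, hG.lej hj,
    h3.mono hO.isLaw.nonneg (Nat.le_mul_of_pos_right _ (by omega)) le_rfl le_rfl⟩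

/-- **The reduction**, end form. -/
theorem redP {Ls : ℕ → Prop} {n K A B : ℕ} {lam gam : ℕ → ℝ} {C₁ h : ℝ} (hn : 1 ≤ n)
    (hlam : ∀ l, 1 ≤ l → l ≤ n → 1 ≤ lam l) (hgam : ∀ l, 0 ≤ gam l) (hC : 0 ≤ C₁)
    (H : P4P Ls n K A B lam gam C₁ h) : P4F Ls n K A B lam gam C₁ h := by
  obtain ⟨M, K', η', κ, ϖ, z₀, b1, b2, b3, b4, H⟩ := H
  obtain ⟨M', K'', η'', κ'', ϖ'', z₀', c1, c2, c3, c4, H'⟩ := redG hn hlam hgam hC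
    (fun _ _ _ _ _ => True) (fun _ _ _ _ _ => True) (fun _ _ _ _ _ _ _ _ _ _ _ _ _ _ _ => trivial)
    (Ls := Ls) (K := K) (A := A) (B := B) (h := h)
    ⟨M, K', η', κ, ϖ, z₀, b1, b2, b3, b4, fun J a₀ w₀ z D q hz hO hN hT _ hA hF hP =>
      H J a₀ w₀ z D q hz hO hN hT hA hF hP⟩
  exact ⟨M', K'', η'', κ'', ϖ'', z₀', c1, c2, c3, c4, fun J a₀ w₀ z D q hz hO hN hT =>
    H' J a₀ w₀ z D q hz hO hN hT trivial⟩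

end Pool.P4
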